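import Mathlib
import Pool.Agent.Lib.MP_6bc78b_nt.MS.L.Iface

/-! Project MS, Part IIIa, module FINLV: assembly of `LVStatement`. -/

set_option autoImplicit false

open Filter Topology ArithmeticFunction

namespace Pool.Agent.Lib.MP_6bc78b_nt.MS.L.H04

open Pool.Agent.Lib.MP_6bc78b_nt.MS.L

lemma DD_pos {T : ℝ} (hT : 1 < T) : 0 < DD T :=
  div_pos (by linarith) (Real.rpow_pos_of_pos (Real.log_pos hT) _)

lemma cG_pos {T : ℝ} (hT : 1 < T) : 0 < cG T :=
  div_pos (DD_pos hT) (by positivity)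

/-- Limits of the normalised integrals. -/
lemma jlim (hj : JnStatement) (i : ℕ) :
    Tendsto (fun T : ℝ => Jn T i / (cG T * Real.log T ^ i)) atTop (𝓝 1) := hj.2 i

lemma Kinv (K : ℝ) : Tendsto (fun T : ℝ => K / Real.log T) atTop (𝓝 0) :=
  Tendsto.const_div_atTop Real.tendsto_log_atTop K

/-- The sum over `m` in `LVStatement`, in terms of `HT`. -/
lemma psum_HT (hg : GrwStatement) (hs : SplStatement) (th c1 c2 T : ℝ) (hT : 1 < T) :
    Psum th c1 c2 T 0 (La * lg) - 2 * Psum th c1 c2 T 1 lg + Psum th c1 c2 T 2 one =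
    ∑ m ∈ Finset.Icc 1 ⌊T ^ th⌋₊, (bet th c1 c2 T m / (m * (Nat.totient m : ℝ))) *
      ∑ d ∈ m.divisors, (d : ℝ) * ((ArithmeticFunction.moebius (m / d) : ℤ) : ℝ) *
        HT T d ((m : ℝ) / d) := by
  obtain ⟨h1, h2, h3, _, hm, _, _⟩ := hg
  rw [hs th c1 c2 T 0 _ hT (hm _ _ h3 h2), hs th c1 c2 T 1 _ hT h2, hs th c1 c2 T 2 _ hT h1,
    Finset.mul_sum, ← Finset.sum_sub_distrib, ← Finset.sum_add_distrib]
  refine Finset.sum_congr rfl (fun m _ => ?_)
  rw [mul_left_comm (2 : ℝ), ← mul_sub, ← mul_add, Finset.mul_sum (s := m.divisors) (a := (2 : ℝ)),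
    ← Finset.sum_sub_distrib, ← Finset.sum_add_distrib]
  congr 1
  refine Finset.sum_congr rfl (fun d _ => ?_)
  unfold HT
  ring

lemma psum_HTB (hg : GrwStatement) (hs : SplStatement) (th lam c1 c2 T : ℝ) (hl : 0 < lam)
    (hT : 1 < T) :
    Psum th c1 c2 T 0 (La * lg * bb lam T) - 2 * Psum th c1 c2 T 1 (lg * bb lam T) +
      Psum th c1 c2 T 2 (one * bb lam T) =
    ∑ m ∈ Finset.Icc 1 ⌊T ^ th⌋₊, (bet th c1 c2 T m / (m * (Nat.totient m : ℝ))) *
      ∑ d ∈ m.divisors, (d : ℝ) * ((ArithmeticFunction.moebius (m / d) : ℤ) : ℝ) *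
        HTB lam T d ((m : ℝ) / d) := by
  obtain ⟨h1, h2, h3, h4, hm, _, _⟩ := hg
  have hb := h4 lam T hl hT
  rw [hs th c1 c2 T 0 _ hT (hm _ _ (hm _ _ h3 h2) hb), hs th c1 c2 T 1 _ hT (hm _ _ h2 hb),
    hs th c1 c2 T 2 _ hT (hm _ _ h1 hb),
    Finset.mul_sum, ← Finset.sum_sub_distrib, ← Finset.sum_add_distrib]
  refine Finset.sum_congr rfl (fun m _ => ?_)
  rw [mul_left_comm (2 : ℝ), ← mul_sub, ← mul_add, Finset.mul_sum (s := m.divisors) (a := (2 : ℝ)),
    ← Finset.sum_sub_distrib, ← Finset.sum_add_distrib]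
  congr 1
  refine Finset.sum_congr rfl (fun d _ => ?_)
  unfold HTB
  ring

theorem finlv (hg : GrwStatement) (hs : SplStatement) (κ1 κ0 : ℝ) (hh : HtStatement κ1 κ0)
    (he : ErrStatement) (hmn : MnStatement) (hj : JnStatement) : LVStatement := by
  intro th c1 c2 hth hth2
  obtain ⟨K, hK0, hK⟩ := hh
  have e1 := he th c1 c2 0 K hth hth2 le_rfl one_pos HT (fun T d N => ET κ1 κ0 T d N) (by
    filter_upwards [hK, eventually_ge_atTop (Real.exp 1)] with T hT hT1 d hd ρ hρ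
    refine (hT d hd ρ hρ).trans ?_
    have hL : 1 ≤ Real.log T := by
      rw [← Real.log_exp 1]; exact Real.log_le_log (Real.exp_pos 1) hT1
    have hd1 : (1 : ℝ) ≤ d := by
      exact_mod_cast Nat.one_le_iff_ne_zero.mpr hd.ne_zero
    have hD : 0 ≤ Real.log d := Real.log_nonneg hd1
    have hT0 : 0 < T := lt_of_lt_of_le (Real.exp_pos 1) hT1
    rw [zero_div, Real.rpow_zero, mul_one]
    have hp : 0 ≤ (ρ * T) ^ (19 / 20 : ℝ) := Real.rpow_nonneg (by positivity) _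
    refine mul_le_mul_of_nonneg_right ?_ hp
    have a1 : Real.log T ^ 2 ≤ Real.log T ^ 3 := pow_le_pow_right₀ hL (by norm_num)
    have a2 : (1 + Real.log d) ^ 2 ≤ (1 + Real.log d) ^ 3 :=
      pow_le_pow_right₀ (by linarith) (by norm_num)
    exact mul_le_mul (mul_le_mul_of_nonneg_left a1 hK0.le) a2 (by positivity) (by positivity))
  obtain ⟨K2, hK20, hK2⟩ := hmn κ1 κ0 th c1 c2 hth hth2
  -- the main term
  have e2 : Tendsto (fun T : ℝ => Mn κ1 κ0 th c1 c2 T 1 1 0 / (cG T * Real.log T ^ 2)) atTop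
      (𝓝 (- m1 th c1 c2)) := by
    have l1 := (jlim hj 1).const_mul (th * (c1 / 2 + c2 / 3))
    have l2 := (jlim hj 2).const_mul ((c1 + c2) / 2)
    have l3 := (l2.add l1).neg
    rw [mul_one, mul_one] at l3
    have l4 : Tendsto (fun T : ℝ => Mn κ1 κ0 th c1 c2 T 1 1 0 / (cG T * Real.log T ^ 2) -
        -((c1 + c2) / 2 * (Jn T 2 / (cG T * Real.log T ^ 2)) +
          th * (c1 / 2 + c2 / 3) * (Jn T 1 / (cG T * Real.log T ^ 1)))) atTop (𝓝 0) := by
      refine squeeze_zero_norm' ?_ (Kinv K2)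
      filter_upwards [hK2, eventually_gt_atTop (1 : ℝ)] with T hT hT1
      have hL : 0 < Real.log T := Real.log_pos hT1
      have hc := cG_pos hT1
      have h := hT 1 (Or.inl rfl) 1 0 1 le_rfl (Real.one_le_rpow hT1.le hth.le)
        (by rw [abs_zero]; exact hL.le) (by rw [Real.log_one, zero_div, sub_zero])
      rw [Real.norm_eq_abs]
      have hden : 0 < cG T * Real.log T ^ 2 := by positivity
      have e : Mn κ1 κ0 th c1 c2 T 1 1 0 / (cG T * Real.log T ^ 2) -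
        -((c1 + c2) / 2 * (Jn T 2 / (cG T * Real.log T ^ 2)) +
          th * (c1 / 2 + c2 / 3) * (Jn T 1 / (cG T * Real.log T ^ 1))) =
        (Mn κ1 κ0 th c1 c2 T 1 1 0 -
          (PP c1 c2 1 * (Jn T 0 * 0 ^ 2 / 2 - Jn T 1 * 0 - Jn T 2 / 2) -
          (Jn T 0 * 0 + Jn T 1) * (Real.log T * (th * (c1 * 1 ^ 2 / 2 + c2 * 1 ^ 3 / 3))))) /
          (cG T * Real.log T ^ 2) := by
        unfold PP
        field_simp
        ring
      rw [e, abs_div, abs_of_pos hden, div_le_div_iff₀ hden hL]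
      calc _ ≤ K2 * (cG T * Real.log T) * Real.log T := mul_le_mul_of_nonneg_right h hL.le
        _ = _ := by ring
    have l5 := l4.add l3
    have : m1 th c1 c2 = (c1 + c2) / 2 + th * (c1 / 2 + c2 / 3) := rfl
    rw [zero_add, ← this] at l5
    refine l5.congr (fun T => ?_)
    ring
  have e3 := e1.add e2
  rw [zero_add] at e3
  refine e3.congr' ?_
  filter_upwards [eventually_gt_atTop (1 : ℝ)] with T hT1
  rw [psum_HT hg hs th c1 c2 T hT1, ← add_div]
  congr 1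
  have : Mn κ1 κ0 th c1 c2 T 1 1 0 = ∑ m ∈ (Finset.Icc 1 ⌊T ^ th⌋₊).filter Squarefree,
      PP c1 c2 (1 - Real.log m / (th * Real.log T)) / (m.totient : ℝ) * ∑ d ∈ m.divisors,
        ((ArithmeticFunction.moebius d : ℤ) : ℝ) * ET κ1 κ0 T d (Real.log m) := by
    unfold Mn DT
    simp only [div_one, Real.log_one, add_zero, Nat.coprime_one_right_eq_true, and_true]
  rw [this]
  ring

end Pool.Agent.Lib.MP_6bc78b_nt.MS.L.H04
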