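import Mathlib
import Pool.Agent.Lib.MP_6bc78b_nt.MS.L.Iface
import Pool.Agent.Lib.MP_6bc78b_nt.MS.L.H04.FinLV

/-! Project MS, Part IIIa, module FINLVB: assembly of `LVBStatement`. -/

set_option autoImplicit false

open Filter Topology ArithmeticFunction

namespace Pool.Agent.Lib.MP_6bc78b_nt.MS.L.H04

open Pool.Agent.Lib.MP_6bc78b_nt.MS.L

lemma bb_apply (lam T : ℝ) (a : ℕ) : bb lam T a = if (a : ℝ) ≤ T ^ lam then
    ArithmeticFunction.vonMangoldt a * (1 - Real.log a / (lam * Real.log T)) /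
      (lam * Real.log T) else 0 := rfl

lemma log_le_of_mem {lam T : ℝ} (hT : 1 < T) {a : ℕ}
    (ha : a ∈ Finset.Icc 1 ⌊T ^ lam⌋₊) : 0 ≤ Real.log a ∧ Real.log a ≤ lam * Real.log T := by
  rw [Finset.mem_Icc] at ha
  have h0 : (0 : ℝ) ≤ T ^ lam := Real.rpow_nonneg (by linarith) _
  have h1 : (a : ℝ) ≤ T ^ lam := (Nat.le_floor_iff h0).mp ha.2
  have h2 : (1 : ℝ) ≤ a := by exact_mod_cast ha.1
  refine ⟨Real.log_nonneg h2, ?_⟩
  rw [← Real.log_rpow (by linarith)]
  exact Real.log_le_log (by linarith) h1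

lemma bb_nonneg {lam T : ℝ} (hl : 0 < lam) (hT : 1 < T) {a : ℕ}
    (ha : a ∈ Finset.Icc 1 ⌊T ^ lam⌋₊) : 0 ≤ bb lam T a / a := by
  have hL := Real.log_pos hT
  obtain ⟨_, h2⟩ := log_le_of_mem hT ha
  rw [bb_apply]
  split_ifs
  · have : Real.log a / (lam * Real.log T) ≤ 1 := by
      rw [div_le_one (by positivity)]; exact h2
    have h3 := @ArithmeticFunction.vonMangoldt_nonneg a
    have : 0 ≤ 1 - Real.log a / (lam * Real.log T) := by linarith
    positivity
  · simp

lemma sum3 (s : Finset ℕ) (w x : ℕ → ℝ) (a0 a1 a2 : ℝ) :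
    ∑ a ∈ s, w a * (a0 + a1 * x a + a2 * x a ^ 2) =
      a0 * ∑ a ∈ s, w a * x a ^ 0 + a1 * ∑ a ∈ s, w a * x a ^ 1 + a2 * ∑ a ∈ s, w a * x a ^ 2 := by
  rw [Finset.mul_sum, Finset.mul_sum, Finset.mul_sum, ← Finset.sum_add_distrib,
    ← Finset.sum_add_distrib]
  exact Finset.sum_congr rfl (fun a _ => by ring)

lemma sum3' (s : Finset ℕ) (w x : ℕ → ℝ) (a1 a2 a3 : ℝ) :
    ∑ a ∈ s, w a * (a1 * x a + a2 * x a ^ 2 + a3 * x a ^ 3) =
      a1 * ∑ a ∈ s, w a * x a ^ 1 + a2 * ∑ a ∈ s, w a * x a ^ 2 + a3 * ∑ a ∈ s, w a * x a ^ 3 := by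
  rw [Finset.mul_sum, Finset.mul_sum, Finset.mul_sum, ← Finset.sum_add_distrib,
    ← Finset.sum_add_distrib]
  exact Finset.sum_congr rfl (fun a _ => by ring)

/-- Normalised integrals. -/
noncomputable def jj (T : ℝ) (i : ℕ) : ℝ := Jn T i / (cG T * Real.log T ^ i)

lemma Jn_eq {T : ℝ} (hT : 1 < T) (i : ℕ) : Jn T i = jj T i * (cG T * Real.log T ^ i) := by
  unfold jj
  have := cG_pos hT
  have := Real.log_pos hT
  field_simp

/-- A bound for the explicit main term. -/
lemma main_bound (c1 c2 th z x j0 j1 j2 : ℝ) (hth : 0 < th) (hth2 : th < 1 / 2) (hz0 : 0 ≤ z)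
    (hz1 : z ≤ 1) (hx : |x| ≤ 1) (h0 : |j0| ≤ 2) (h1 : |j1| ≤ 2) (h2 : |j2| ≤ 2) :
    |PP c1 c2 z * (j0 * x ^ 2 / 2 - j1 * x - j2 / 2) -
      (j0 * x + j1) * (th * (c1 * z ^ 2 / 2 + c2 * z ^ 3 / 3))| ≤ 8 * (|c1| + |c2|) := by
  have hP : |PP c1 c2 z| ≤ |c1| + |c2| := by
    unfold PP
    refine (abs_add_le _ _).trans ?_
    rw [abs_mul, abs_mul, abs_of_nonneg hz0, abs_of_nonneg (sq_nonneg z)]
    have : z ^ 2 ≤ 1 := pow_le_one₀ hz0 hz1
    nlinarith [abs_nonneg c1, abs_nonneg c2]
  have hI : |th * (c1 * z ^ 2 / 2 + c2 * z ^ 3 / 3)| ≤ |c1| + |c2| := by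
    rw [abs_mul, abs_of_pos hth]
    have h3 : |c1 * z ^ 2 / 2 + c2 * z ^ 3 / 3| ≤ |c1| + |c2| := by
      refine (abs_add_le _ _).trans ?_
      rw [abs_div, abs_div, abs_mul, abs_mul, abs_of_nonneg (sq_nonneg z),
        abs_of_nonneg (pow_nonneg hz0 3), abs_of_pos (by norm_num : (0 : ℝ) < 2),
        abs_of_pos (by norm_num : (0 : ℝ) < 3)]
      have a1 : z ^ 2 ≤ 1 := pow_le_one₀ hz0 hz1
      have a2 : z ^ 3 ≤ 1 := pow_le_one₀ hz0 hz1
      have b1 : |c1| * z ^ 2 ≤ |c1| := by nlinarith [abs_nonneg c1]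
      have b2 : |c2| * z ^ 3 ≤ |c2| := by nlinarith [abs_nonneg c2]
      have := abs_nonneg c1
      have := abs_nonneg c2
      linarith
    have := abs_nonneg (c1 * z ^ 2 / 2 + c2 * z ^ 3 / 3)
    nlinarith
  have hS : 0 ≤ |c1| + |c2| := by positivity
  have hA : |j0 * x ^ 2 / 2 - j1 * x - j2 / 2| ≤ 4 := by
    have hx2 : x ^ 2 ≤ 1 := by rw [← sq_abs]; exact pow_le_one₀ (abs_nonneg _) hx
    have a0 : |j0 * x ^ 2| ≤ 2 := by
      rw [abs_mul, abs_of_nonneg (sq_nonneg x)]
      nlinarith [abs_nonneg j0, sq_nonneg x]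
    have a1 : |j1 * x| ≤ 2 := by
      rw [abs_mul]
      nlinarith [abs_nonneg j1, abs_nonneg x]
    rw [abs_le] at *
    constructor <;> linarith [a0.1, a0.2, a1.1, a1.2, h2.1, h2.2]
  have hB : |j0 * x + j1| ≤ 4 := by
    have a0 : |j0 * x| ≤ 2 := by
      rw [abs_mul]
      nlinarith [abs_nonneg j0, abs_nonneg x]
    exact (abs_add_le _ _).trans (by linarith)
  calc _ ≤ |PP c1 c2 z * (j0 * x ^ 2 / 2 - j1 * x - j2 / 2)| +
        |(j0 * x + j1) * (th * (c1 * z ^ 2 / 2 + c2 * z ^ 3 / 3))| := abs_sub _ _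
    _ ≤ (|c1| + |c2|) * 4 + 4 * (|c1| + |c2|) := by
        rw [abs_mul, abs_mul]
        exact add_le_add (mul_le_mul hP hA (abs_nonneg _) hS)
          (mul_le_mul hB hI (abs_nonneg _) (by norm_num))
    _ = _ := by ring

theorem finlvb (hg : GrwStatement) (hs : SplStatement) (κ1 κ0 : ℝ) (hh : HtbStatement κ1 κ0)
    (he : ErrStatement) (hmn : MnStatement) (hr : ReaStatement) (hp : PsbStatement)
    (hj : JnStatement) : LVBStatement := by
  intro th lam c1 c2 hth hth2 hthl hlam1
  have hlam : 0 < lam := hth.trans hthl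
  obtain ⟨K, hK0, hK⟩ := hh lam hlam hlam1
  have e1 := he th c1 c2 lam K hth hth2 hlam.le hlam1 (fun T d ρ => HTB lam T d ρ)
    (fun T d N => ETB κ1 κ0 lam T d N) hK
  obtain ⟨K2, hK20, hK2⟩ := hmn κ1 κ0 th c1 c2 hth hth2
  obtain ⟨p1, p2, p3⟩ := hp th lam hth hthl hlam1
  set I1 : ℝ := th * (c1 / 2 + c2 / 3) with hI1
  set S : ℝ := |c1| + |c2| with hS
  have hS0 : 0 ≤ S := by positivity
  -- names for the sums
  set σ : ℕ → ℝ → ℝ := fun k T => ∑ a ∈ Finset.Icc 1 ⌊T ^ lam⌋₊,
    bb lam T a / a * (Real.log a / Real.log T) ^ k with hσ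
  set τ : ℕ → ℝ → ℝ := fun k T => ∑ a ∈ (Finset.Icc 1 ⌊T ^ th⌋₊).filter Nat.Prime,
    bb lam T a / a * (1 - Real.log a / (th * Real.log T)) ^ k with hτ
  set ν : ℝ → ℝ := fun T => ∑ a ∈ (Finset.Icc 1 ⌊T ^ lam⌋₊).filter (fun a => ¬ a.Prime),
    bb lam T a / a with hν
  set B : ℝ → ℝ := fun T => ∑ a ∈ Finset.Icc 1 ⌊T ^ lam⌋₊, bb lam T a / a *
      (Mn κ1 κ0 th c1 c2 T a.minFac 1 (-Real.log a) -
        Mn κ1 κ0 th c1 c2 T a.minFac a.minFac (Real.log a.minFac - Real.log a)) with hB
  set M : ℝ → ℝ := fun T =>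
    ((-(c1 + c2) * jj T 2 / 2 - jj T 1 * I1) * σ 0 T + ((c1 + c2) * jj T 1 + jj T 0 * I1) * σ 1 T +
      (c1 + c2) * jj T 0 / 2 * σ 2 T) -
    ((-(jj T 2) * c1 / 2) * τ 1 T + (-(jj T 2) * c2 / 2 - jj T 1 * (th * c1 / 2)) * τ 2 T +
      (-(jj T 1) * (th * c2 / 3)) * τ 3 T) with hM
  have hj0 : Tendsto (fun T => jj T 0) atTop (𝓝 1) := hj.2 0
  have hj1 : Tendsto (fun T => jj T 1) atTop (𝓝 1) := hj.2 1
  have hj2 : Tendsto (fun T => jj T 2) atTop (𝓝 1) := hj.2 2
  -- the limit of M
  have limM : Tendsto M atTop (𝓝 (- m3 th lam c1 c2)) := by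
    have s0 := p1 0
    have s1 := p1 1
    have s2 := p1 2
    have t1 := p2 1
    have t2 := p2 2
    have t3 := p2 3
    have hlim := ((((((hj2.const_mul (-(c1 + c2))).div_const 2).sub (hj1.mul_const I1)).mul s0).add
      (((hj1.const_mul (c1 + c2)).add (hj0.mul_const I1)).mul s1)).add
      (((hj0.const_mul (c1 + c2)).div_const 2).mul s2)).sub
      ((((((hj2.neg.mul_const c1).div_const 2)).mul t1).add
      ((((hj2.neg.mul_const c2).div_const 2).sub (hj1.mul_const (th * c1 / 2))).mul t2)).add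
      ((hj1.neg.mul_const (th * c2 / 3)).mul t3))
    convert hlim using 2
    unfold m3 m1
    rw [hI1]
    push_cast
    field_simp
    ring
  -- the difference
  have hdiff : Tendsto (fun T => B T / (cG T * Real.log T ^ 2) - M T) atTop (𝓝 0) := by
    have b1 : Tendsto (fun T => σ 0 T * (2 * K2 / Real.log T) + ν T * (K2 + 8 * S)) atTop (𝓝 0) := by
      have := ((p1 0).mul (Kinv (2 * K2))).add (p3.mul_const (K2 + 8 * S))
      rw [mul_zero, zero_mul, add_zero] at this
      exact this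
    refine squeeze_zero_norm' ?_ b1
    have c0 : ∀ᶠ T in atTop, |jj T 0| ≤ 2 := by
      filter_upwards [hj0.eventually (Ioo_mem_nhds (show (0 : ℝ) < 1 by norm_num)
        (show (1 : ℝ) < 2 by norm_num))] with T hT
      rw [abs_of_pos hT.1]; exact hT.2.le
    have c1' : ∀ᶠ T in atTop, |jj T 1| ≤ 2 := by
      filter_upwards [hj1.eventually (Ioo_mem_nhds (show (0 : ℝ) < 1 by norm_num)
        (show (1 : ℝ) < 2 by norm_num))] with T hT
      rw [abs_of_pos hT.1]; exact hT.2.le
    have c2' : ∀ᶠ T in atTop, |jj T 2| ≤ 2 := by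
      filter_upwards [hj2.eventually (Ioo_mem_nhds (show (0 : ℝ) < 1 by norm_num)
        (show (1 : ℝ) < 2 by norm_num))] with T hT
      rw [abs_of_pos hT.1]; exact hT.2.le
    filter_upwards [hK2, c0, c1', c2', eventually_ge_atTop (Real.exp 1)] with T hT k0 k1 k2 hTe
    have hT1 : 1 < T := lt_of_lt_of_le (by have := Real.add_one_lt_exp (x := 1) one_ne_zero; linarith) hTe
    have hL1 : 1 ≤ Real.log T := by
      rw [← Real.log_exp 1]; exact Real.log_le_log (Real.exp_pos 1) hTe
    have hL : 0 < Real.log T := by linarith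
    have hc := cG_pos hT1
    have hden : 0 < cG T * Real.log T ^ 2 := by positivity
    set L := Real.log T with hLdef
    -- pointwise approximants, normalised
    set A0 : ℕ → ℝ := fun a => (-(c1 + c2) * jj T 2 / 2 - jj T 1 * I1) +
      ((c1 + c2) * jj T 1 + jj T 0 * I1) * (Real.log a / L) +
      (c1 + c2) * jj T 0 / 2 * (Real.log a / L) ^ 2 with hA0
    set B0 : ℕ → ℝ := fun a => (-(jj T 2) * c1 / 2) * (1 - Real.log a / (th * L)) +
      (-(jj T 2) * c2 / 2 - jj T 1 * (th * c1 / 2)) * (1 - Real.log a / (th * L)) ^ 2 +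
      (-(jj T 1) * (th * c2 / 3)) * (1 - Real.log a / (th * L)) ^ 3 with hB0
    have hMT : M T = ∑ a ∈ Finset.Icc 1 ⌊T ^ lam⌋₊, bb lam T a / a *
        (A0 a - if a.Prime ∧ a ≤ ⌊T ^ th⌋₊ then B0 a else 0) := by
      have q1 := sum3 (Finset.Icc 1 ⌊T ^ lam⌋₊) (fun a => bb lam T a / a)
        (fun a => Real.log a / L) (-(c1 + c2) * jj T 2 / 2 - jj T 1 * I1)
        ((c1 + c2) * jj T 1 + jj T 0 * I1) ((c1 + c2) * jj T 0 / 2)
      have q2 := sum3' ((Finset.Icc 1 ⌊T ^ th⌋₊).filter Nat.Prime) (fun a => bb lam T a / a)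
        (fun a => 1 - Real.log a / (th * L)) (-(jj T 2) * c1 / 2)
        (-(jj T 2) * c2 / 2 - jj T 1 * (th * c1 / 2)) (-(jj T 1) * (th * c2 / 3))
      have q3 : ∑ a ∈ Finset.Icc 1 ⌊T ^ lam⌋₊, bb lam T a / a *
          (if a.Prime ∧ a ≤ ⌊T ^ th⌋₊ then B0 a else 0) =
          ∑ a ∈ (Finset.Icc 1 ⌊T ^ th⌋₊).filter Nat.Prime, bb lam T a / a * B0 a := by
        have hsub : (Finset.Icc 1 ⌊T ^ th⌋₊).filter Nat.Prime =
            (Finset.Icc 1 ⌊T ^ lam⌋₊).filter (fun a => a.Prime ∧ a ≤ ⌊T ^ th⌋₊) := by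
          ext a
          simp only [Finset.mem_filter, Finset.mem_Icc]
          have hle : ⌊T ^ th⌋₊ ≤ ⌊T ^ lam⌋₊ :=
            Nat.floor_mono (Real.rpow_le_rpow_of_exponent_le hT1.le hthl.le)
          constructor
          · rintro ⟨⟨h1, h2⟩, h3⟩; exact ⟨⟨h1, h2.trans hle⟩, h3, h2⟩
          · rintro ⟨⟨h1, _⟩, h3, h2⟩; exact ⟨⟨h1, h2⟩, h3⟩
        rw [hsub, Finset.sum_filter]
        refine Finset.sum_congr rfl (fun a _ => ?_)
        split_ifs <;> simp
      simp only [mul_sub]
      rw [Finset.sum_sub_distrib, q3]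
      exact (congrArg₂ (· - ·) q1 q2).symm
    have hpt : ∀ a ∈ Finset.Icc 1 ⌊T ^ lam⌋₊,
        |bb lam T a / a * (Mn κ1 κ0 th c1 c2 T a.minFac 1 (-Real.log a) -
          Mn κ1 κ0 th c1 c2 T a.minFac a.minFac (Real.log a.minFac - Real.log a)) /
          (cG T * L ^ 2) - bb lam T a / a *
          (A0 a - if a.Prime ∧ a ≤ ⌊T ^ th⌋₊ then B0 a else 0)| ≤
        bb lam T a / a * (Real.log a / L) ^ 0 * (2 * K2 / L) +
          (if ¬ a.Prime then bb lam T a / a else 0) * (K2 + 8 * S) := by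
      intro a ha
      have hb0 := bb_nonneg hlam hT1 ha
      obtain ⟨hla0, hla⟩ := log_le_of_mem hT1 ha
      have hlaL : Real.log a ≤ L := hla.trans (by nlinarith)
      by_cases hz : ArithmeticFunction.vonMangoldt a = 0
      · have hz' : bb lam T a = 0 := by rw [bb_apply, hz]; simp
        rw [hz']; simp
      · have hpp : IsPrimePow a := by
          by_contra hcon
          exact hz (ArithmeticFunction.vonMangoldt_apply.trans (if_neg hcon))
        have hane : a ≠ 1 := hpp.ne_one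
        have hmp : a.minFac.Prime := Nat.minFac_prime hane
        have hapos : 0 < a := hpp.pos
        have hmle : a.minFac ≤ a := Nat.minFac_le hapos
        have hmpos : (1 : ℝ) ≤ a.minFac := by exact_mod_cast hmp.one_lt.le
        have hlm0 : 0 ≤ Real.log a.minFac := Real.log_nonneg hmpos
        have hlmle : Real.log a.minFac ≤ Real.log a :=
          Real.log_le_log (by linarith) (by exact_mod_cast hmle)
        -- first part
        have hA := hT a.minFac (Or.inr hmp) 1 (-Real.log a) 1 le_rfl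
          (Real.one_le_rpow hT1.le hth.le) (by rw [abs_neg, abs_of_nonneg hla0]; exact hlaL)
          (by rw [Real.log_one, zero_div, sub_zero])
        have hA' : |Mn κ1 κ0 th c1 c2 T a.minFac 1 (-Real.log a) / (cG T * L ^ 2) - A0 a| ≤
            K2 / L := by
          have e : Mn κ1 κ0 th c1 c2 T a.minFac 1 (-Real.log a) / (cG T * L ^ 2) - A0 a =
              (Mn κ1 κ0 th c1 c2 T a.minFac 1 (-Real.log a) -
              (PP c1 c2 1 * (Jn T 0 * (-Real.log a) ^ 2 / 2 - Jn T 1 * (-Real.log a) - Jn T 2 / 2) -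
              (Jn T 0 * (-Real.log a) + Jn T 1) *
                (L * (th * (c1 * 1 ^ 2 / 2 + c2 * 1 ^ 3 / 3))))) / (cG T * L ^ 2) := by
            rw [hA0, Jn_eq hT1 0, Jn_eq hT1 1, Jn_eq hT1 2, hI1]
            unfold PP
            simp only
            field_simp
            ring
          rw [e, abs_div, abs_of_pos hden, div_le_div_iff₀ hden hL]
          calc _ ≤ K2 * (cG T * L) * L := mul_le_mul_of_nonneg_right hA hL.le
            _ = _ := by ring
        -- second part, with the factor at `p = minFac a`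
        have hzero : ¬ ((a.minFac : ℝ) ≤ T ^ th) →
            Mn κ1 κ0 th c1 c2 T a.minFac a.minFac (Real.log a.minFac - Real.log a) = 0 := by
          intro hn
          rw [not_le] at hn
          have hfl : ⌊T ^ th / (a.minFac : ℝ)⌋₊ = 0 := by
            rw [Nat.floor_eq_zero, div_lt_one (by linarith)]; exact hn
          unfold Mn
          rw [hfl]
          simp
        have hBn : |Mn κ1 κ0 th c1 c2 T a.minFac a.minFac (Real.log a.minFac - Real.log a) /
            (cG T * L ^ 2) - (if a.Prime ∧ a ≤ ⌊T ^ th⌋₊ then B0 a else 0)| ≤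
            K2 / L + (if ¬ a.Prime then K2 + 8 * S else 0) := by
          by_cases hle : (a.minFac : ℝ) ≤ T ^ th
          · set z : ℝ := 1 - Real.log a.minFac / (th * L) with hzdef
            have hs' : |Real.log a.minFac - Real.log a| ≤ L := by
              rw [abs_le]; constructor <;> linarith
            have hBB := hT a.minFac (Or.inr hmp) a.minFac (Real.log a.minFac - Real.log a) z
              hmpos hle hs' rfl
            have hlth : Real.log a.minFac ≤ th * L := by
              rw [hLdef, ← Real.log_rpow (by linarith)]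
              exact Real.log_le_log (by linarith) hle
            have hz0 : 0 ≤ z := by
              rw [hzdef, sub_nonneg, div_le_one (by positivity)]; exact hlth
            have hz1 : z ≤ 1 := by
              rw [hzdef]; have : 0 ≤ Real.log a.minFac / (th * L) := by positivity
              linarith
            set x : ℝ := (Real.log a.minFac - Real.log a) / L with hx
            have hxeq : Real.log a.minFac - Real.log a = x * L := by rw [hx]; field_simp
            set E0 : ℝ := PP c1 c2 z * (jj T 0 * x ^ 2 / 2 - jj T 1 * x - jj T 2 / 2) -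
              (jj T 0 * x + jj T 1) * (th * (c1 * z ^ 2 / 2 + c2 * z ^ 3 / 3)) with hE0
            have hB' : |Mn κ1 κ0 th c1 c2 T a.minFac a.minFac (Real.log a.minFac - Real.log a) /
                (cG T * L ^ 2) - E0| ≤ K2 / L := by
              have e : Mn κ1 κ0 th c1 c2 T a.minFac a.minFac (Real.log a.minFac - Real.log a) /
                (cG T * L ^ 2) - E0 =
                (Mn κ1 κ0 th c1 c2 T a.minFac a.minFac (Real.log a.minFac - Real.log a) -
                (PP c1 c2 z * (Jn T 0 * (Real.log a.minFac - Real.log a) ^ 2 / 2 -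
                  Jn T 1 * (Real.log a.minFac - Real.log a) - Jn T 2 / 2) -
                (Jn T 0 * (Real.log a.minFac - Real.log a) + Jn T 1) *
                  (L * (th * (c1 * z ^ 2 / 2 + c2 * z ^ 3 / 3))))) / (cG T * L ^ 2) := by
                rw [hE0, Jn_eq hT1 0, Jn_eq hT1 1, Jn_eq hT1 2, ← hLdef]
                rw [hxeq]
                field_simp
              rw [e, abs_div, abs_of_pos hden, div_le_div_iff₀ hden hL]
              calc _ ≤ K2 * (cG T * L) * L := mul_le_mul_of_nonneg_right hBB hL.le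
                _ = _ := by ring
            by_cases hap : a.Prime
            · have hma : a.minFac = a := hap.minFac_eq
              have hfl : a ≤ ⌊T ^ th⌋₊ := by
                rw [hma] at hle
                exact (Nat.le_floor_iff (Real.rpow_nonneg (by linarith) _)).mpr hle
              rw [if_pos ⟨hap, hfl⟩, if_neg (not_not.mpr hap), add_zero]
              have : E0 = B0 a := by
                rw [hE0, hB0, hx, hzdef, hma, sub_self, zero_div]
                unfold PP
                simp only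
                ring
              rw [← this]; exact hB'
            · rw [if_neg (fun h => hap h.1), if_pos hap, sub_zero]
              have hxb : |x| ≤ 1 := by
                rw [hx, abs_div, abs_of_pos hL, div_le_one hL]; exact hs'
              have hmb := main_bound c1 c2 th z x (jj T 0) (jj T 1) (jj T 2) hth hth2 hz0 hz1 hxb
                k0 k1 k2
              have := abs_sub_abs_le_abs_sub (Mn κ1 κ0 th c1 c2 T a.minFac a.minFac
                (Real.log a.minFac - Real.log a) / (cG T * L ^ 2)) E0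
              have h8 : |E0| ≤ 8 * S := hmb
              linarith
          · rw [hzero hle, zero_div]
            have hnot : ¬ (a.Prime ∧ a ≤ ⌊T ^ th⌋₊) := by
              rintro ⟨hap, hfl⟩
              apply hle
              rw [hap.minFac_eq]
              exact (Nat.le_floor_iff (Real.rpow_nonneg (by linarith) _)).mp hfl
            rw [if_neg hnot, sub_zero, abs_zero]
            have : 0 ≤ K2 / L := by positivity
            split_ifs <;> positivity
        have e : bb lam T a / a * (Mn κ1 κ0 th c1 c2 T a.minFac 1 (-Real.log a) -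
            Mn κ1 κ0 th c1 c2 T a.minFac a.minFac (Real.log a.minFac - Real.log a)) /
            (cG T * L ^ 2) - bb lam T a / a *
            (A0 a - if a.Prime ∧ a ≤ ⌊T ^ th⌋₊ then B0 a else 0) =
            bb lam T a / a * ((Mn κ1 κ0 th c1 c2 T a.minFac 1 (-Real.log a) / (cG T * L ^ 2) -
              A0 a) - (Mn κ1 κ0 th c1 c2 T a.minFac a.minFac
              (Real.log a.minFac - Real.log a) / (cG T * L ^ 2) -
              (if a.Prime ∧ a ≤ ⌊T ^ th⌋₊ then B0 a else 0))) := by ring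
        rw [e, abs_mul, abs_of_nonneg hb0]
        calc _ ≤ bb lam T a / a * (K2 / L + (K2 / L + (if ¬ a.Prime then K2 + 8 * S else 0))) := by
              refine mul_le_mul_of_nonneg_left ?_ hb0
              exact (abs_sub _ _).trans (add_le_add hA' hBn)
          _ = _ := by
              rw [pow_zero, mul_one]
              split_ifs <;> ring
    have hBT : B T / (cG T * L ^ 2) - M T = ∑ a ∈ Finset.Icc 1 ⌊T ^ lam⌋₊,
        (bb lam T a / a * (Mn κ1 κ0 th c1 c2 T a.minFac 1 (-Real.log a) -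
          Mn κ1 κ0 th c1 c2 T a.minFac a.minFac (Real.log a.minFac - Real.log a)) /
          (cG T * L ^ 2) - bb lam T a / a *
          (A0 a - if a.Prime ∧ a ≤ ⌊T ^ th⌋₊ then B0 a else 0)) := by
      rw [Finset.sum_sub_distrib, ← Finset.sum_div, ← hMT]
    rw [hBT, Real.norm_eq_abs]
    refine (Finset.abs_sum_le_sum_abs _ _).trans ((Finset.sum_le_sum hpt).trans (le_of_eq ?_))
    rw [Finset.sum_add_distrib, ← Finset.sum_mul, ← Finset.sum_mul, ← Finset.sum_filter]
  -- assembly
  have e4 := (e1.add hdiff).add limM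
  rw [zero_add, zero_add] at e4
  refine e4.congr' ?_
  filter_upwards [eventually_gt_atTop (1 : ℝ)] with T hT1
  rw [psum_HTB hg hs th lam c1 c2 T hlam hT1, hr κ1 κ0 th c1 c2 lam T hth hlam hT1]
  ring

end Pool.Agent.Lib.MP_6bc78b_nt.MS.L.H04
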