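import Mathlib
import Pool.Agent.Lib.MP_6bc78b_nt.MS.L.Iface

/-! Project MS, Part IIIa, module U: from summatory functions to kernel sums. -/

set_option autoImplicit false

open Filter Topology MeasureTheory Set

namespace Pool.Agent.Lib.MP_6bc78b_nt.MS.L.H04

open Pool.Agent.Lib.MP_6bc78b_nt.MS.L

lemma exp_half_le {u : ℝ} (hu : 0 < u) :
    Real.exp (|Real.log u| / 2) ≤ u ^ (1 / 2 : ℝ) + u ^ (-(1 / 2) : ℝ) := by
  rw [Real.rpow_def_of_pos hu, Real.rpow_def_of_pos hu]
  rcases abs_cases (Real.log u) with ⟨h, _⟩ | ⟨h, _⟩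
  · rw [h]
    have := Real.exp_pos (Real.log u * (-(1 / 2)))
    have e : Real.log u / 2 = Real.log u * (1 / 2) := by ring
    rw [e]; linarith
  · rw [h]
    have := Real.exp_pos (Real.log u * (1 / 2))
    have e : -Real.log u / 2 = Real.log u * (-(1 / 2)) := by ring
    rw [e]; linarith

lemma poly_bound (Q : Polynomial ℝ) (R : ℝ) : ∃ K : ℝ, 0 ≤ K ∧ ∀ u : ℝ, 0 < u →
    |Q.eval (R + Real.log u)| ≤ K * (u ^ (1 / 2 : ℝ) + u ^ (-(1 / 2) : ℝ)) := by
  set S : ℝ := ∑ k ∈ Finset.range (Q.natDegree + 1), |Q.coeff k| * (k.factorial * 2 ^ k) with hS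
  have hS0 : 0 ≤ S := Finset.sum_nonneg (fun k _ => by positivity)
  refine ⟨S * Real.exp (|R| / 2), by positivity, fun u hu => ?_⟩
  have key : ∀ y : ℝ, |Q.eval y| ≤ S * Real.exp (|y| / 2) := by
    intro y
    rw [Polynomial.eval_eq_sum_range, hS, Finset.sum_mul]
    refine (Finset.abs_sum_le_sum_abs _ _).trans (Finset.sum_le_sum fun k _ => ?_)
    rw [abs_mul, abs_pow, mul_assoc]
    refine mul_le_mul_of_nonneg_left ?_ (abs_nonneg _)
    have h := Real.pow_div_factorial_le_exp (|y| / 2) (by positivity) k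
    have hf : (0 : ℝ) < k.factorial := by exact_mod_cast k.factorial_pos
    rw [div_le_iff₀ hf, div_pow, div_le_iff₀ (by positivity)] at h
    calc |y| ^ k ≤ _ := h
      _ = _ := by ring
  refine (key _).trans ?_
  rw [mul_assoc]
  refine mul_le_mul_of_nonneg_left ?_ hS0
  calc Real.exp (|R + Real.log u| / 2) ≤ Real.exp (|R| / 2 + |Real.log u| / 2) := by
        apply Real.exp_le_exp.mpr
        have := abs_add_le R (Real.log u)
        linarith
    _ = Real.exp (|R| / 2) * Real.exp (|Real.log u| / 2) := Real.exp_add _ _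
    _ ≤ _ := mul_le_mul_of_nonneg_left (exp_half_le hu) (Real.exp_pos _).le

/-- The general transfer. -/
lemma transfer (F : ℝ → ℝ)
    (hd : ∀ u : ℝ, 0 < u → HasDerivAt F (deriv F u) u)
    (hI : ∀ s : ℝ, 0 < s → IntegrableOn (fun u : ℝ => |deriv F u| * u ^ s) (Ioi 0))
    (hl : ∀ s : ℝ, 0 < s → Tendsto (fun u : ℝ => F u * u ^ s) atTop (𝓝 0) ∧
      Tendsto (fun u : ℝ => F u * u ^ s) (𝓝[>] 0) (𝓝 0))
    (hJ : ∀ i : ℕ, IntegrableOn (fun u : ℝ => Real.log u ^ i * F u) (Ioi 0))
    (a : ℕ → ℝ) (P : Polynomial ℝ) (C : ℝ) (ha : SumAsy a P C) (ρ : ℝ) (hρ : 0 < ρ) :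
    |∑' n : ℕ, a n * F ((n : ℝ) / ρ) -
      ρ * ∫ x in Ioi (0 : ℝ), F x * (P + Polynomial.derivative P).eval (Real.log ρ + Real.log x)| ≤
      C * ρ ^ (19 / 20 : ℝ) * ∫ u in Ioi (0 : ℝ), |deriv F u| * u ^ (19 / 20 : ℝ) := by
  obtain ⟨ha0, ⟨C', hC'⟩, hA⟩ := ha
  have hm : Measurable (deriv F) := measurable_deriv F
  have hF0 : Tendsto F atTop (𝓝 0) := by
    have h1 := ((hl 1 one_pos).1).mul (tendsto_inv_atTop_zero (𝕜 := ℝ))
    rw [zero_mul] at h1
    refine h1.congr' ?_
    filter_upwards [eventually_gt_atTop (0 : ℝ)] with u hu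
    rw [Real.rpow_one]; field_simp
  -- integrability of the derivative away from zero
  have hIx : ∀ x : ℝ, 0 < x → IntegrableOn (deriv F) (Ioi x) := by
    intro x hx
    refine Integrable.mono' (g := fun u => x⁻¹ * (|deriv F u| * u ^ (1 : ℝ)))
      (((hI 1 one_pos).mono_set (Ioi_subset_Ioi hx.le)).const_mul _)
      hm.aestronglyMeasurable ?_
    filter_upwards [ae_restrict_mem measurableSet_Ioi] with u hu
    rw [Real.rpow_one, Real.norm_eq_abs, ← mul_assoc, mul_comm x⁻¹, mul_assoc]
    have hu' : x < u := hu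
    have : 1 ≤ x⁻¹ * u := by rw [inv_mul_eq_div, le_div_iff₀ hx]; linarith
    nlinarith [abs_nonneg (deriv F u)]
  have hval : ∀ x : ℝ, 0 < x → ∫ u in Ici x, deriv F u = - F x := by
    intro x hx
    rw [integral_Ici_eq_integral_Ioi, integral_Ioi_of_hasDerivAt_of_tendsto'
      (fun u hu => hd u (lt_of_lt_of_le hx hu)) (hIx x hx) hF0, zero_sub]
  -- the functions
  set f : ℕ → ℝ → ℝ := fun n u => (Ici ((n : ℝ) / ρ)).indicator (fun u => a n * deriv F u) u with hf
  have hfint : ∀ n, Integrable (f n) (volume.restrict (Ioi 0)) := by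
    intro n
    rcases Nat.eq_zero_or_pos n with rfl | hn
    · have : f 0 = fun _ => 0 := by
        funext u; simp [hf, ha0]
      rw [this]; exact integrable_zero _ _ _
    · have hx : 0 < (n : ℝ) / ρ := by positivity
      rw [hf]
      simp only
      rw [integrable_indicator_iff measurableSet_Ici, IntegrableOn, Measure.restrict_restrict
        measurableSet_Ici]
      have : Ici ((n : ℝ) / ρ) ∩ Ioi 0 = Ici ((n : ℝ) / ρ) :=
        inter_eq_left.mpr (fun u hu => lt_of_lt_of_le hx hu)
      rw [this]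
      exact ((integrableOn_Ici_iff_integrableOn_Ioi).mpr (hIx _ hx)).const_mul _
  have hfval : ∀ n, ∫ u in Ioi (0 : ℝ), f n u = -(a n * F ((n : ℝ) / ρ)) := by
    intro n
    rcases Nat.eq_zero_or_pos n with rfl | hn
    · have : f 0 = fun _ => 0 := by
        funext u; simp [hf, ha0]
      rw [this]; simp [ha0]
    · have hx : 0 < (n : ℝ) / ρ := by positivity
      rw [hf]
      simp only
      rw [integral_indicator measurableSet_Ici, Measure.restrict_restrict measurableSet_Ici]
      have : Ici ((n : ℝ) / ρ) ∩ Ioi 0 = Ici ((n : ℝ) / ρ) :=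
        inter_eq_left.mpr (fun u hu => lt_of_lt_of_le hx hu)
      rw [this, integral_const_mul, hval _ hx]
      ring
  set M4 : ℝ := ∫ u in Ioi (0 : ℝ), |deriv F u| * u ^ (4 : ℝ) with hM4
  have hnorm : ∀ n, ∫ u in Ioi (0 : ℝ), ‖f n u‖ ≤ (C' * ρ ^ 4 * M4) * (1 / (n : ℝ) ^ 2) := by
    intro n
    rcases Nat.eq_zero_or_pos n with rfl | hn
    · have : f 0 = fun _ => 0 := by
        funext u; simp [hf, ha0]
      rw [this]; simp
    · have hn' : (0 : ℝ) < n := by exact_mod_cast hn
      have hx : 0 < (n : ℝ) / ρ := by positivity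
      have hC0 : |a n| ≤ C' * (n : ℝ) ^ 2 := hC' n
      calc ∫ u in Ioi (0 : ℝ), ‖f n u‖
          ≤ ∫ u in Ioi (0 : ℝ), (|a n| * (ρ / n) ^ 4) * (|deriv F u| * u ^ (4 : ℝ)) := by
            refine setIntegral_mono_on (hfint n).norm ((hI 4 (by norm_num)).const_mul _)
              measurableSet_Ioi (fun u hu => ?_)
            have hu' : (0 : ℝ) < u := hu
            rw [hf]
            simp only
            by_cases h : u ∈ Ici ((n : ℝ) / ρ)
            · rw [indicator_of_mem h, norm_mul, Real.norm_eq_abs, Real.norm_eq_abs]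
              have h1 : (n : ℝ) / ρ ≤ u := h
              have h2 : 1 ≤ ρ / n * u := by
                rw [div_mul_eq_mul_div, le_div_iff₀ hn']
                rw [div_le_iff₀ hρ] at h1
                linarith
              have h3 : (1 : ℝ) ≤ (ρ / n * u) ^ 4 := one_le_pow₀ h2
              have h4 : u ^ (4 : ℝ) = u ^ (4 : ℕ) := by
                rw [← Real.rpow_natCast]; norm_num
              rw [h4]
              calc |a n| * |deriv F u| = |a n| * |deriv F u| * 1 := by ring
                _ ≤ |a n| * |deriv F u| * (ρ / n * u) ^ 4 :=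
                  mul_le_mul_of_nonneg_left h3 (by positivity)
                _ = _ := by rw [mul_pow]; ring
            · rw [indicator_of_notMem h, norm_zero]
              positivity
        _ = (|a n| * (ρ / n) ^ 4) * M4 := by rw [integral_const_mul]
        _ ≤ ((C' * (n : ℝ) ^ 2) * (ρ / n) ^ 4) * M4 := by
            refine mul_le_mul_of_nonneg_right (mul_le_mul_of_nonneg_right hC0 (by positivity)) ?_
            exact setIntegral_nonneg measurableSet_Ioi (fun u hu => by
              have hu' : (0 : ℝ) < u := hu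
              positivity)
        _ = _ := by rw [div_pow]; field_simp
  have hsum : Summable fun n => ∫ u in Ioi (0 : ℝ), ‖f n u‖ := by
    refine Summable.of_nonneg_of_le (fun n => integral_nonneg (fun u => norm_nonneg _)) hnorm ?_
    exact (Real.summable_one_div_nat_pow.mpr (by norm_num)).mul_left _
  have hex := hasSum_integral_of_summable_integral_norm hfint hsum
  -- pointwise value of the sum
  set A : ℝ → ℝ := fun x => ∑ n ∈ Finset.Icc 1 ⌊x⌋₊, a n with hAdef
  have hpt : ∀ u ∈ Ioi (0 : ℝ), ∑' n, f n u = deriv F u * A (ρ * u) := by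
    intro u hu
    have hu' : (0 : ℝ) < u := hu
    rw [tsum_eq_sum (s := Finset.Icc 1 ⌊ρ * u⌋₊), hAdef]
    · simp only
      rw [Finset.mul_sum]
      refine Finset.sum_congr rfl (fun n hn => ?_)
      rw [Finset.mem_Icc] at hn
      have h1 : (n : ℝ) ≤ ρ * u := (Nat.le_floor_iff (by positivity)).mp hn.2
      have : u ∈ Ici ((n : ℝ) / ρ) := by
        rw [mem_Ici, div_le_iff₀ hρ]; linarith
      rw [hf]; simp only
      rw [indicator_of_mem this]; ring
    · intro n hn
      rw [hf]; simp only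
      rcases Nat.eq_zero_or_pos n with rfl | hn0
      · simp [ha0]
      · have : u ∉ Ici ((n : ℝ) / ρ) := by
          intro h
          apply hn
          rw [Finset.mem_Icc]
          refine ⟨hn0, (Nat.le_floor_iff (by positivity)).mpr ?_⟩
          rw [mem_Ici, div_le_iff₀ hρ] at h
          linarith
        rw [indicator_of_notMem this]
  have hmain : ∑' n : ℕ, a n * F ((n : ℝ) / ρ) = - ∫ u in Ioi (0 : ℝ), deriv F u * A (ρ * u) := by
    have h1 := hex.tsum_eq
    rw [setIntegral_congr_fun measurableSet_Ioi hpt] at h1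
    rw [← h1]
    simp only [hfval]
    rw [tsum_neg, neg_neg]
  -- the polynomial part
  set Q : ℝ → ℝ := fun u => ρ * (u * P.eval (Real.log ρ + Real.log u)) with hQ
  obtain ⟨K, hK0, hK⟩ := poly_bound P (Real.log ρ)
  have hQb : ∀ u : ℝ, 0 < u → |u * P.eval (Real.log ρ + Real.log u)| ≤
      K * (u ^ (3 / 2 : ℝ) + u ^ (1 / 2 : ℝ)) := by
    intro u hu
    rw [abs_mul, abs_of_pos hu]
    have e1 : u ^ (3 / 2 : ℝ) = u * u ^ (1 / 2 : ℝ) := by
      rw [show (3 / 2 : ℝ) = 1 + 1 / 2 by norm_num, Real.rpow_add hu, Real.rpow_one]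
    have e2 : u ^ (1 / 2 : ℝ) = u * u ^ (-(1 / 2) : ℝ) := by
      conv_lhs => rw [show (1 / 2 : ℝ) = 1 + -(1 / 2) by norm_num, Real.rpow_add hu, Real.rpow_one]
    calc u * |P.eval (Real.log ρ + Real.log u)| ≤ u * (K * (u ^ (1 / 2 : ℝ) + u ^ (-(1 / 2) : ℝ))) :=
          mul_le_mul_of_nonneg_left (hK u hu) hu.le
      _ = K * (u * u ^ (1 / 2 : ℝ) + u * u ^ (-(1 / 2) : ℝ)) := by ring
      _ = _ := by rw [← e1, ← e2]
  have hPm : Measurable (fun u : ℝ => P.eval (Real.log ρ + Real.log u)) :=
    P.continuous.measurable.comp (measurable_const.add Real.measurable_log)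
  have hint1 : IntegrableOn (fun u => (u * P.eval (Real.log ρ + Real.log u)) * deriv F u) (Ioi 0) := by
    refine Integrable.mono' (g := fun u => K * (|deriv F u| * u ^ (3 / 2 : ℝ)) +
      K * (|deriv F u| * u ^ (1 / 2 : ℝ)))
      (((hI _ (by norm_num)).const_mul K).add ((hI _ (by norm_num)).const_mul K))
      ((measurable_id.mul hPm).mul hm).aestronglyMeasurable ?_
    filter_upwards [ae_restrict_mem measurableSet_Ioi] with u hu
    rw [norm_mul, Real.norm_eq_abs, Real.norm_eq_abs]
    calc |u * P.eval (Real.log ρ + Real.log u)| * |deriv F u| ≤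
          (K * (u ^ (3 / 2 : ℝ) + u ^ (1 / 2 : ℝ))) * |deriv F u| :=
          mul_le_mul_of_nonneg_right (hQb u hu) (abs_nonneg _)
      _ = _ := by ring
  have hint2 : IntegrableOn (fun u => F u *
      (P + Polynomial.derivative P).eval (Real.log ρ + Real.log u)) (Ioi 0) := by
    set Q2 := (P + Polynomial.derivative P).comp (Polynomial.C (Real.log ρ) + Polynomial.X) with hQ2
    have e : (fun u => F u * (P + Polynomial.derivative P).eval (Real.log ρ + Real.log u)) =
        fun u => ∑ i ∈ Finset.range (Q2.natDegree + 1), Q2.coeff i * (Real.log u ^ i * F u) := by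
      funext u
      have : (P + Polynomial.derivative P).eval (Real.log ρ + Real.log u) = Q2.eval (Real.log u) := by
        rw [hQ2, Polynomial.eval_comp]; simp
      rw [this, Polynomial.eval_eq_sum_range, Finset.mul_sum]
      exact Finset.sum_congr rfl (fun i _ => by ring)
    rw [e]
    exact integrable_finsetSum _ (fun i _ => (hJ i).const_mul _)
  have hparts : ∫ u in Ioi (0 : ℝ), (u * P.eval (Real.log ρ + Real.log u)) * deriv F u =
      - ∫ u in Ioi (0 : ℝ), F u *
        (P + Polynomial.derivative P).eval (Real.log ρ + Real.log u) := by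
    have hsq : ∀ l : Filter ℝ, (∀ s : ℝ, 0 < s → Tendsto (fun u : ℝ => F u * u ^ s) l (𝓝 0)) →
        (∀ᶠ u in l, (0 : ℝ) < u) →
        Tendsto ((fun u => u * P.eval (Real.log ρ + Real.log u)) * F) l (𝓝 0) := by
      intro l h1 h2
      have h3 := ((h1 (3 / 2) (by norm_num)).abs.add (h1 (1 / 2) (by norm_num)).abs).const_mul K
      rw [abs_zero, add_zero, mul_zero] at h3
      refine squeeze_zero_norm' ?_ h3
      filter_upwards [h2] with u hu
      rw [Pi.mul_apply, norm_mul, Real.norm_eq_abs, Real.norm_eq_abs]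
      calc |u * P.eval (Real.log ρ + Real.log u)| * |F u| ≤
            (K * (u ^ (3 / 2 : ℝ) + u ^ (1 / 2 : ℝ))) * |F u| :=
            mul_le_mul_of_nonneg_right (hQb u hu) (abs_nonneg _)
        _ = _ := by
          rw [abs_mul, abs_mul, abs_of_nonneg (Real.rpow_nonneg hu.le _),
            abs_of_nonneg (Real.rpow_nonneg hu.le _)]
          ring
    have hcomm : IntegrableOn ((fun u => (P + Polynomial.derivative P).eval
        (Real.log ρ + Real.log u)) * F) (Ioi 0) := by
      have : ((fun u => (P + Polynomial.derivative P).eval (Real.log ρ + Real.log u)) * F) =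
          fun u => F u * (P + Polynomial.derivative P).eval (Real.log ρ + Real.log u) := by
        funext u; rw [Pi.mul_apply]; ring
      rw [this]; exact hint2
    have h := integral_Ioi_mul_deriv_eq_deriv_mul (a := (0 : ℝ))
      (u := fun u => u * P.eval (Real.log ρ + Real.log u)) (v := F) (v' := deriv F)
      (u' := fun u => (P + Polynomial.derivative P).eval (Real.log ρ + Real.log u))
      (fun x hx => by
        have hx' : (0 : ℝ) < x := hx
        have h1 : HasDerivAt (fun u : ℝ => Real.log ρ + Real.log u) (1 / x) x := by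
          simpa using (Real.hasDerivAt_log hx'.ne').const_add (Real.log ρ)
        have h2 := (P.hasDerivAt (Real.log ρ + Real.log x)).comp x h1
        have h3 := (hasDerivAt_id x).mul h2
        refine HasDerivAt.congr_deriv
          (f := fun u => u * P.eval (Real.log ρ + Real.log u)) h3 ?_
        rw [Polynomial.eval_add]
        simp only [Function.comp, id]
        field_simp)
      (fun x hx => hd x hx) hint1 hcomm
      (hsq _ (fun s hs => (hl s hs).2) (eventually_mem_nhdsWithin))
      (hsq _ (fun s hs => (hl s hs).1) (eventually_gt_atTop 0))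
    rw [h, sub_zero, zero_sub]
    congr 1
    refine integral_congr_ae (Eventually.of_forall fun u => ?_)
    simp only
    ring
  -- the remainder
  have hAm : Measurable (fun u : ℝ => A (ρ * u)) := by
    have h1 : Measurable (fun k : ℕ => ∑ n ∈ Finset.Icc 1 k, a n) := measurable_from_nat
    have h2 : Measurable (fun u : ℝ => ⌊ρ * u⌋₊) := Nat.measurable_floor.comp
      (measurable_const.mul measurable_id)
    exact h1.comp h2
  have hR : ∀ u : ℝ, 0 < u → |A (ρ * u) - ρ * (u * P.eval (Real.log ρ + Real.log u))| ≤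
      C * ρ ^ (19 / 20 : ℝ) * u ^ (19 / 20 : ℝ) := by
    intro u hu
    have h := hA (ρ * u) (by positivity)
    rw [Real.log_mul hρ.ne' hu.ne', Real.mul_rpow hρ.le hu.le] at h
    rw [mul_assoc, ← mul_assoc ρ u]
    exact h
  have hint3 : IntegrableOn (fun u => deriv F u *
      (A (ρ * u) - ρ * (u * P.eval (Real.log ρ + Real.log u)))) (Ioi 0) := by
    refine Integrable.mono' (g := fun u => (C * ρ ^ (19 / 20 : ℝ)) *
      (|deriv F u| * u ^ (19 / 20 : ℝ))) ((hI _ (by norm_num)).const_mul _)
      (hm.mul (hAm.sub (measurable_const.mul (measurable_id.mul hPm)))).aestronglyMeasurable ?_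
    filter_upwards [ae_restrict_mem measurableSet_Ioi] with u hu
    rw [norm_mul, Real.norm_eq_abs, Real.norm_eq_abs]
    calc _ ≤ |deriv F u| * (C * ρ ^ (19 / 20 : ℝ) * u ^ (19 / 20 : ℝ)) :=
          mul_le_mul_of_nonneg_left (hR u hu) (abs_nonneg _)
      _ = _ := by ring
  have hsplit : ∫ u in Ioi (0 : ℝ), deriv F u * A (ρ * u) =
      ρ * (∫ u in Ioi (0 : ℝ), (u * P.eval (Real.log ρ + Real.log u)) * deriv F u) +
      ∫ u in Ioi (0 : ℝ), deriv F u *
        (A (ρ * u) - ρ * (u * P.eval (Real.log ρ + Real.log u))) := by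
    rw [← integral_const_mul, ← integral_add (hint1.const_mul ρ) hint3]
    refine integral_congr_ae (Eventually.of_forall fun u => ?_)
    simp only
    ring
  rw [hmain, hsplit, hparts]
  have e : -(ρ * -(∫ u in Ioi (0 : ℝ), F u *
        (P + Polynomial.derivative P).eval (Real.log ρ + Real.log u)) +
      ∫ u in Ioi (0 : ℝ), deriv F u *
        (A (ρ * u) - ρ * (u * P.eval (Real.log ρ + Real.log u)))) -
      ρ * ∫ x in Ioi (0 : ℝ), F x *
        (P + Polynomial.derivative P).eval (Real.log ρ + Real.log x) =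
      -∫ u in Ioi (0 : ℝ), deriv F u *
        (A (ρ * u) - ρ * (u * P.eval (Real.log ρ + Real.log u))) := by ring
  rw [e, abs_neg, ← Real.norm_eq_abs]
  refine (norm_integral_le_integral_norm _).trans ?_
  rw [← integral_const_mul]
  refine setIntegral_mono_on hint3.norm ((hI _ (by norm_num)).const_mul _) measurableSet_Ioi
    (fun u hu => ?_)
  rw [norm_mul, Real.norm_eq_abs, Real.norm_eq_abs]
  calc _ ≤ |deriv F u| * (C * ρ ^ (19 / 20 : ℝ) * u ^ (19 / 20 : ℝ)) :=
        mul_le_mul_of_nonneg_left (hR u hu) (abs_nonneg _)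
    _ = _ := by ring

theorem u (h1 : Kd1Statement) (h2 : Kd2Statement) (h3 : JnStatement) : UStatement := by
  intro j
  obtain ⟨K, hK0, hK⟩ := h2 j
  refine ⟨K, hK0, ?_⟩
  filter_upwards [hK, eventually_gt_atTop (1 : ℝ)] with T hT hT1 a P C ha ρ hρ
  have hC : 0 ≤ C := by
    have := (abs_nonneg _).trans (ha.2.2 1 one_pos)
    rwa [Real.one_rpow, mul_one] at this
  have ht := transfer (Fj T j) (fun u hu => by
      have := h1.1 j T u hT1 hu
      rw [this.deriv]; exact this)
    (fun s hs => h1.2.1 j T s hT1 hs) (fun s hs => h1.2.2 j T s hT1 hs)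
    (fun i => by
      have := h3.1 (i + j) T hT1
      refine this.congr_fun (fun u _ => ?_) measurableSet_Ioi
      unfold Fj
      rw [pow_add]; ring) a P C ha ρ hρ
  refine ht.trans ?_
  rw [Real.mul_rpow hρ.le (by linarith)]
  calc C * ρ ^ (19 / 20 : ℝ) * ∫ u in Ioi (0 : ℝ), |deriv (Fj T j) u| * u ^ (19 / 20 : ℝ)
      ≤ C * ρ ^ (19 / 20 : ℝ) * (K * Real.log T ^ j * T ^ (19 / 20 : ℝ)) :=
        mul_le_mul_of_nonneg_left hT (mul_nonneg hC (Real.rpow_nonneg hρ.le _))
    _ = _ := by ring

end Pool.Agent.Lib.MP_6bc78b_nt.MS.L.H04
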